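import Mathlib
import Pool.Agent.Lib.MP_0e3347_nt.Fin2

namespace Pool.Agent.Results.MP_0e3347_nt.DeterminantEvaluation

open MvPolynomial NumberField Module

/-- The polynomial ring `ℚ[x, y, z, w]`. -/
abbrev Poly : Type := MvPolynomial (Fin 4) ℚ

/-- The variable `x`. -/
noncomputable def x : Poly := X 0

/-- The variable `y`. -/
noncomputable def y : Poly := X 1

/-- The variable `z`. -/
noncomputable def z : Poly := X 2

/-- The variable `w`. -/
noncomputable def w : Poly := X 3

/-- The Legendre symbol `(a/p)` as a constant polynomial. -/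
noncomputable def leg (p : ℕ) [Fact p.Prime] (a : ℤ) : Poly := C (legendreSym p a : ℚ)

/-- The matrix entry `x + ((j-k+1)/p) + (j/p) y + (k/p) z + (jk/p) w`. -/
noncomputable def entry (p : ℕ) [Fact p.Prime] (j k : ℤ) : Poly :=
  x + leg p (j - k + 1) + leg p j * y + leg p k * z + leg p (j * k) * w

/-- The determinant `D_p` of the problem. The row index `j` and the column index `k` of the
problem run over `1, ..., (p-1)/2`; here they are `j + 1` and `k + 1` with `j k : Fin ((p-1)/2)`. -/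
noncomputable def D (p : ℕ) [Fact p.Prime] : Poly :=
  (Matrix.of fun j k : Fin ((p - 1) / 2) => entry p ((j : ℤ) + 1) ((k : ℤ) + 1)).det

/-- The right-hand side of the problem for `p ≡ 1 (mod 4)`, with `a = a_p'` and `b = b_p'`. -/
noncomputable def rhsOne (p : ℕ) [Fact p.Prime] (a b : ℚ) : Poly :=
  leg p 2 * C (((p : ℚ) - 1) / 2) * ((y + 1) * z - w * x)
    + C ((p : ℚ) * b - a) * ((w + 1) * x - y * z)
    + leg p 2 * C (b - a) * (w * (1 - x) + (y + 1) * (z + 1))

/-- The right-hand side of the problem for `p ≡ 3 (mod 4)`, with `h = h(-p)`. -/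
noncomputable def rhsThree (p : ℕ) [Fact p.Prime] (h : ℕ) : Poly :=
  ((w + 1) * x - y * z)
    + leg p 2 * ((y + 1) * (z - 1) - w * (x + 1))
    + C ((-1 : ℚ) ^ ((h - 1) / 2)) * C (((p : ℚ) + 1) / 2) * (w * x - (y + 1) * z)

/-- The field `ℚ(√p)`, as a subfield of `ℝ`. -/
noncomputable def RealQuad (p : ℕ) : IntermediateField ℚ ℝ :=
  IntermediateField.adjoin ℚ {Real.sqrt p}

/-- The field `ℚ(√-p)`, as a subfield of `ℂ`. -/
noncomputable def ImagQuad (p : ℕ) : IntermediateField ℚ ℂ :=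
  IntermediateField.adjoin ℚ {Complex.I * (Real.sqrt p : ℂ)}

lemma isIntegral_sqrt (p : ℕ) : IsIntegral ℚ (Real.sqrt p) := by
  refine ⟨Polynomial.X ^ 2 - Polynomial.C (p : ℚ), ?_, ?_⟩
  · monicity!
  · have : Real.sqrt p ^ 2 = p := Real.sq_sqrt (Nat.cast_nonneg p)
    rw [Polynomial.eval₂_sub, Polynomial.eval₂_pow, Polynomial.eval₂_X, Polynomial.eval₂_C, this]
    simp

lemma isIntegral_sqrt_neg (p : ℕ) : IsIntegral ℚ (Complex.I * (Real.sqrt p : ℂ)) := by
  refine ⟨Polynomial.X ^ 2 + Polynomial.C (p : ℚ), ?_, ?_⟩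
  · monicity!
  · have : Real.sqrt p ^ 2 = p := Real.sq_sqrt (Nat.cast_nonneg p)
    have h2 : (Complex.I * (Real.sqrt p : ℂ)) ^ 2 = - (p : ℂ) := by
      rw [mul_pow, Complex.I_sq, ← Complex.ofReal_pow, this]
      simp
    rw [Polynomial.eval₂_add, Polynomial.eval₂_pow, Polynomial.eval₂_X, Polynomial.eval₂_C, h2]
    simp

instance instNumberFieldReal (p : ℕ) : NumberField (RealQuad p) where
  to_charZero := inferInstance
  to_finiteDimensional := IntermediateField.adjoin.finiteDimensional (isIntegral_sqrt p)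

instance instNumberFieldImag (p : ℕ) : NumberField (ImagQuad p) where
  to_charZero := inferInstance
  to_finiteDimensional := IntermediateField.adjoin.finiteDimensional (isIntegral_sqrt_neg p)

/-- The class number of `ℚ(√p)`. -/
noncomputable def hReal (p : ℕ) : ℕ := classNumber (RealQuad p)

/-- The class number of `ℚ(√-p)`. -/
noncomputable def hImag (p : ℕ) : ℕ := classNumber (ImagQuad p)

/-- The units of the ring of integers of `ℚ(√p)`. -/
def IntUnits (p : ℕ) : Type := (𝓞 (RealQuad p))ˣ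

/-- The real number given by a unit of the ring of integers of `ℚ(√p)`. -/
noncomputable def unitVal (p : ℕ) (ε : IntUnits p) : ℝ :=
  ((algebraMap (𝓞 (RealQuad p)) (RealQuad p) (Units.val ε) : RealQuad p) : ℝ)

/-- `ε` is the fundamental unit `ε_p > 1` of `ℚ(√p)`: it is larger than `1` and every unit of the
ring of integers is `± ε ^ k` for an integer `k`. -/
def IsFundamental (p : ℕ) (ε : IntUnits p) : Prop :=
  1 < unitVal p ε ∧
    ∀ v : IntUnits p, ∃ k : ℤ, unitVal p v = unitVal p ε ^ k ∨ unitVal p v = -(unitVal p ε ^ k)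

/-- `ε ^ ((2 - (2/p)) h(p)) = a + b √p`, where `h(p)` is the class number of `ℚ(√p)`. -/
def IsCoords (p : ℕ) [Fact p.Prime] (ε : IntUnits p) (a b : ℚ) : Prop :=
  unitVal p ε ^ ((2 - legendreSym p 2) * (hReal p : ℤ)) = (a : ℝ) + (b : ℝ) * Real.sqrt p

section aux

open MP0e3347

variable {p : ℕ} [hp : Fact p.Prime]

lemma finrank_real : finrank ℚ (RealQuad p) = 2 := by
  rw [RealQuad, IntermediateField.adjoin.finrank (isIntegral_sqrt p)]
  have h1 : (minpoly ℚ (Real.sqrt p)).natDegree ≤ 2 := by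
    have h2 : (Polynomial.X ^ 2 - Polynomial.C (p : ℚ)).natDegree = 2 := by compute_degree!
    rw [← h2]
    refine Polynomial.natDegree_le_of_dvd (minpoly.dvd _ _ ?_) ?_
    · have : Real.sqrt p ^ 2 = p := Real.sq_sqrt (Nat.cast_nonneg p)
      simp [this]
    · intro h
      rw [h] at h2
      simp at h2
  have h3 : 2 ≤ (minpoly ℚ (Real.sqrt p)).natDegree := by
    rw [minpoly.two_le_natDegree_iff (isIntegral_sqrt p)]
    rintro ⟨r, hr⟩
    exact hp.out.irrational_sqrt ⟨r, hr⟩
  omega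

lemma finrank_imag : finrank ℚ (ImagQuad p) = 2 := by
  have hsq : Real.sqrt p ^ 2 = p := Real.sq_sqrt (Nat.cast_nonneg p)
  have h0 : (Complex.I * (Real.sqrt p : ℂ)) ^ 2 = - (p : ℂ) := by
    rw [mul_pow, Complex.I_sq, ← Complex.ofReal_pow, hsq]
    simp
  rw [ImagQuad, IntermediateField.adjoin.finrank (isIntegral_sqrt_neg p)]
  have h1 : (minpoly ℚ (Complex.I * (Real.sqrt p : ℂ))).natDegree ≤ 2 := by
    have h2 : (Polynomial.X ^ 2 + Polynomial.C (p : ℚ)).natDegree = 2 := by compute_degree!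
    rw [← h2]
    refine Polynomial.natDegree_le_of_dvd (minpoly.dvd _ _ ?_) ?_
    · rw [map_add, map_pow, Polynomial.aeval_X, Polynomial.aeval_C, h0]
      simp
    · intro h
      rw [h] at h2
      simp at h2
  have h3 : 2 ≤ (minpoly ℚ (Complex.I * (Real.sqrt p : ℂ))).natDegree := by
    rw [minpoly.two_le_natDegree_iff (isIntegral_sqrt_neg p)]
    rintro ⟨r, hr⟩
    have h4 : ((r ^ 2 : ℚ) : ℂ) = ((- (p : ℚ) : ℚ) : ℂ) := by
      push_cast
      rw [← h0, ← hr]
      simp
    have h5 : r ^ 2 = - (p : ℚ) := by exact_mod_cast h4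
    have h6 : (0 : ℚ) < p := by exact_mod_cast hp.out.pos
    nlinarith [sq_nonneg r]
  omega

/-- `√p` in `ℚ(√p)`. -/
noncomputable def rtR (p : ℕ) : RealQuad p :=
  ⟨Real.sqrt p, IntermediateField.subset_adjoin ℚ _ (Set.mem_singleton _)⟩

/-- `√-p` in `ℚ(√-p)`. -/
noncomputable def rtC (p : ℕ) : ImagQuad p :=
  ⟨Complex.I * (Real.sqrt p : ℂ), IntermediateField.subset_adjoin ℚ _ (Set.mem_singleton _)⟩

/-- The inclusion of `ℚ(√p)` in `ℝ`. -/
noncomputable def incl (p : ℕ) : RealQuad p →+* ℝ := (RealQuad p).val.toRingHom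

/-- The inclusion of `ℚ(√-p)` in `ℂ`. -/
noncomputable def inclC (p : ℕ) : ImagQuad p →+* ℂ := (ImagQuad p).val.toRingHom

lemma incl_rt (p : ℕ) : incl p (rtR p) = Real.sqrt p := rfl

lemma inclC_rt (p : ℕ) : inclC p (rtC p) = Complex.I * (Real.sqrt p : ℂ) := rfl

/-- the quadratic field data of `ℚ(√p)` -/
noncomputable def qfReal (h : p % 4 = 1) : QF p (RealQuad p) where
  s := rtR p
  c := - ((p / 4 : ℕ) : ℤ)
  hK := finrank_real
  hs := by
    have h1 : (1 - 4 * (- ((p / 4 : ℕ) : ℤ)) : ℤ) = (p : ℤ) := by omega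
    rw [h1]
    apply (incl p).injective
    have hsq : Real.sqrt p ^ 2 = p := Real.sq_sqrt (Nat.cast_nonneg p)
    rw [map_pow, map_intCast, incl_rt, hsq]
    simp
  hc := by omega

/-- the quadratic field data of `ℚ(√-p)` -/
noncomputable def qfImag (h : p % 4 = 3) : QF p (ImagQuad p) where
  s := rtC p
  c := (((p + 1) / 4 : ℕ) : ℤ)
  hK := finrank_imag
  hs := by
    have h1 : (1 - 4 * ((((p + 1) / 4 : ℕ) : ℤ)) : ℤ) = - (p : ℤ) := by omega
    rw [h1]
    apply (inclC p).injective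
    have hsq : Real.sqrt p ^ 2 = p := Real.sq_sqrt (Nat.cast_nonneg p)
    rw [map_pow, map_intCast, inclC_rt, mul_pow, Complex.I_sq, ← Complex.ofReal_pow, hsq]
    simp
  hc := by omega

omit hp in
lemma unitVal_eq (ε : (𝓞 (RealQuad p))ˣ) : unitVal p ε = uv (incl p) ε := rfl

lemma fund_iff (ε : (𝓞 (RealQuad p))ˣ) : IsFundamental p ε ↔ IsFund (incl p) ε := by
  constructor
  · rintro ⟨h1, h2⟩
    refine ⟨h1, fun v => ?_⟩
    obtain ⟨k, hk⟩ := h2 v
    refine ⟨k, ?_⟩
    rw [unitVal_eq, unitVal_eq, ← uv_zpow, ← uv_neg] at hk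
    rcases hk with hk | hk
    · left; exact uv_injective (incl p) hk
    · right; exact uv_injective (incl p) hk
  · rintro ⟨h1, h2⟩
    refine ⟨h1, fun v => ?_⟩
    obtain ⟨k, hk⟩ := h2 v
    refine ⟨k, ?_⟩
    rcases hk with hk | hk
    · left
      have h3 : uv (incl p) v = uv (incl p) ε ^ k := by rw [← uv_zpow, hk]
      exact h3
    · right
      have h3 : uv (incl p) v = -(uv (incl p) ε ^ k) := by rw [← uv_zpow, ← uv_neg, hk]
      exact h3

end aux

/-- The determinant evaluation, for every prime `p > 3`.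

If `p ≡ 1 (mod 4)`: the fundamental unit `ε_p > 1` of `ℚ(√p)` exists, the power
`ε_p ^ ((2 - (2/p)) h(p))` is `a + b √p` with `2a, 2b ∈ ℤ`, and `D_p` is the polynomial of the
problem for these `a = a_p'`, `b = b_p'`.

If `p ≡ 3 (mod 4)`: the class number `h(-p)` of `ℚ(√-p)` is odd and `D_p` is the polynomial of
the problem. -/
theorem result (p : ℕ) [Fact p.Prime] (hp : 3 < p) :
    (p % 4 = 1 →
      (∃ ε : IntUnits p, IsFundamental p ε) ∧
      ∀ ε : IntUnits p, IsFundamental p ε →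
        (∃ a b : ℚ, (∃ i : ℤ, 2 * a = i) ∧ (∃ i : ℤ, 2 * b = i) ∧ IsCoords p ε a b) ∧
        ∀ a b : ℚ, IsCoords p ε a b → D p = rhsOne p a b) ∧
    (p % 4 = 3 → Odd (hImag p) ∧ D p = rhsThree p (hImag p)) := by
  constructor
  · intro h4
    have Y := qfReal (p := p) h4
    have hpos : 0 < 1 - 4 * Y.c := by
      have h5 := Y.d_sign
      rw [ZMod.χ₄_nat_one_mod_four h4, one_mul] at h5
      rw [h5]
      omega
    refine ⟨?_, ?_⟩
    · obtain ⟨u, hu⟩ := MP0e3347.exists_fund finrank_real (incl p)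
      exact ⟨u, (fund_iff u).mpr hu⟩
    · intro ε hε
      refine ⟨MP0e3347.main_real_exists Y hpos (incl p) ε, ?_⟩
      intro a b hab
      have h := MP0e3347.main_real Y hpos (incl p) ((fund_iff ε).mp hε) hab hp
      have h' : D p = MP0e3347.Dp p := rfl
      rw [h', h]
      unfold rhsOne leg x y z w
      simp only [map_mul]
  · intro h4
    have Y := qfImag (p := p) h4
    have hneg : 1 - 4 * Y.c < 0 := by
      have h5 := Y.d_sign
      rw [ZMod.χ₄_nat_three_mod_four h4] at h5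
      rw [h5]
      omega
    obtain ⟨h0, h⟩ := MP0e3347.main_imag Y hneg hp
    refine ⟨h0, ?_⟩
    have h' : D p = MP0e3347.Dp p := rfl
    rw [h', h]
    unfold rhsThree leg x y z w hImag
    simp only [map_mul]

end Pool.Agent.Results.MP_0e3347_nt.DeterminantEvaluation
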